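import Pool.Agent.R936.ArbF.ClsF

/-!
# The crystalline Tate conjecture, class by class: factors with few Frobenius eigenvalues

Let `X i`, `i ∈ I`, be a family (finite or infinite) of smooth projective varieties over the field with
`q = p ^ e` elements, such that the slopes have a common denominator `D` and the multiplicative group
generated by all Frobenius eigenvalues has rank at most `R` (for instance all products of elliptic curves
and abelian varieties whose Frobenius eigenvalues are in one number field). Assume that the pole formula
of Tate (a statement which does not depend on the cohomology theory) holds in all codimensions for the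
products of members with at most `R + 1` different factors.

`W` is a Weil cohomology theory with algebraically closed coefficients `K`, for instance crystalline
cohomology with coefficients extended to an algebraic closure of the field of fractions of the Witt
vectors; the Frobenius endomorphisms act linearly, and `IsTate` is the condition `Fr x = q ^ j x` of the
problem over a large finite field.

*Theorem.* There is one product `Y` of members of the family with the following property. Let `ℓ` be a
natural number and `Z` **any** smooth projective variety over the field with `q` elements such that all
slopes `s` of `H^d(Z)`, for all `d`, satisfy `|2 s - d| ≤ ℓ` (so `ℓ = 0` if `Z` is supersingular, and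
`ℓ = dim Z` is always possible). For each product `P` of members of the family and each Tate
class `c` on `Z × P` there is a finite set `S` of Tate classes on `Z × Y ^ ℓ` (`Z × Y` if `ℓ = 0`) such
that

`c` is a linear combination of classes of algebraic cycles **if and only if** all classes in `S` are.

So the Tate conjecture for `Z × P`, for all products `P` of members (of unbounded dimension), is a
consequence of the Tate conjecture for the one variety `Z × Y ^ ℓ`, with coefficients in the given
cohomology theory and without any assumption on the semisimplicity of the Frobenius endomorphism of
`Z`; and each single class corresponds to classes on this variety, so that each Tate class on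
`Z × Y ^ ℓ` which can be shown to be algebraic has consequences for all products.

*Proof.* By the theorem of Helly type (`MP_0f183b_ag.HellyNumber`) all Tate words in the eigenvectors in
the cohomology of the members are algebraic. Applied to the word of an eigenvector and its dual this
shows that the eigenvectors are honest ones. A Tate class `c` on `Z × P` is a sum of classes
`z_a ⊗ w_a`, where the `w_a` form a basis of words, and the `z_a` are honest eigenvectors of large powers
of the Frobenius endomorphism. The rows of the `p`-adic valuations of `w_a` are bounded by `ℓ`, and by a
lemma of Dickson type there is a word `b_a` on `Y ^ ℓ` with the same row and parity. The set `S` consists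
of the classes `z_a ⊗ b_a`. The matrix of the intersection numbers of the words is a block matrix for
the equivalence relation given by the rows, hence the dual basis vector `w_a*` is a combination of
words `w` for which `w ⊗ b_a` is a Tate word, and `z_a ⊗ b_a` is the contraction of `c` and the
algebraic class `w_a* ⊗ b_a`. The class `z_a ⊗ w_a` is the contraction of `z_a ⊗ b_a` and an algebraic
class `b_a* ⊗ w_a`.
-/

open CategoryTheory AlgebraicGeometry

universe u v w

namespace Pool.Agent.Results.MP_60ec62_ag.ClassByClass

open Pool.Agent.H914 Pool.Agent.W534 Pool.Agent.R936.Hel Pool.Agent.R936.ArbF VarClass Obj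
  WeilCohomology
open Pool.Agent.R940 (HasIntegralPolys IsSlopeDenominator)

/-- **The crystalline Tate conjecture, class by class**: for a family of varieties over a finite field
whose Frobenius eigenvalues generate a group of rank at most `R`, for which the pole formula holds for
the products with at most `R + 1` different factors, there is one product `Y` of members such that for
every variety `Z` whose slopes `s` in degree `d` satisfy `|2 s - d| ≤ ℓ` and every Tate class `c` on the
product of `Z` with a product of members there is a finite set `S` of Tate classes on `Z × Y ^ ℓ` such
that `c` is algebraic if and only if all elements of `S` are. -/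
theorem result {k : Type u} [Field k] {𝒱 : VarClass k} {ops : CycleOps 𝒱}
    (W : WeilCohomology.{u, v} ops) [IsAlgClosed W.K] (σ : W.K →+* ℂ) (p : ℕ) [Fact p.Prime]
    (Φ : FrobSystem W p) (hRH : ∀ Z : 𝒱.Obj, RiemannHyp Φ σ Z) {I : Type w} [Nonempty I]
    (X : I → 𝒱.Obj) (e : ℕ) (he : ∀ i, Φ.e (X i) = e) (hint : ∀ i, HasIntegralPolys Φ σ (X i))
    (D : ℕ) (hD : ∀ i, IsSlopeDenominator Φ σ (X i) D) (R : ℕ)
    (hR : RankLe {z | ∃ i, z ∈ eigenvalues Φ σ (X i)} R)
    (h : ∀ i L, (∃ F : Finset I, F.card ≤ R + 1 ∧ ∀ j ∈ i :: L, j ∈ F) →
      ∀ j, j ≤ (prodOf X i L).dim → PoleFormula Φ σ (prodOf X i L) j) :
    ∃ (i₀ : I) (L₀ : List I), ∀ (ℓ : ℕ) (Z : 𝒱.Obj), Φ.e Z = e → HasIntegralPolys Φ σ Z →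
      SlopesLe Φ Z ℓ → ∀ (i : I) (L : List I) (j : ℕ) (c : W.H (Z.prod (prodOf X i L))),
        IsTate Φ (Z.prod (prodOf X i L)) j c →
          ∃ S : Set (W.H (Z.prod (powerOf X i₀ L₀ ℓ))), S.Finite ∧
            (∀ s ∈ S, ∃ j', IsTate Φ (Z.prod (powerOf X i₀ L₀ ℓ)) j' s) ∧
            (IsAlgClass c ↔ ∀ s ∈ S, IsAlgClass s) :=
  clsf_main hRH he hint hD hR h

end Pool.Agent.Results.MP_60ec62_ag.ClassByClass
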