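import Pool.Agent.R937.PZ.Cry

/-!
# The crystalline Tate conjecture for abelian varieties of dimension at most five and for products of
elliptic curves, abelian surfaces and non-ordinary threefolds

Over an algebraic closure of the field with `p` elements each abelian variety is isogenous to the
reduction of an abelian variety of CM type (Honda, Tate). So an abelian variety over the field with
`p ^ a` elements is modelled by a finite product `X` of CM types `(E i, Φ i)` with Weil numbers
`π i ∈ E i` that satisfy the formula of Shimura and Taniyama (`RedAV`).

Let `Y` be an abelian variety over the field with `p ^ a` elements of one of the following kinds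
(`IsGoodAVP`):

* its dimension is at most five (any Newton polygon, any decomposition);
* it is isogenous, over an algebraic closure, to a product of a supersingular abelian variety of any
  dimension and of abelian varieties of dimension at most three (any number, any multiplicity), such
  that any two factors of dimension three whose CM fields have the same Galois closure satisfy one of
  the following: their fields are Galois over `ℚ`; one of them is supersingular; they are isogenous;
  **neither of them is ordinary and their `p`-ranks are not `{1, 2}`**. So `Y` may be any product of
  elliptic curves, of abelian surfaces and of abelian threefolds that all have `p`-rank two, or that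
  all have `p`-rank zero or one; nonisogenous threefolds with the same CM field, or with different CM
  fields with the same Galois closure, are allowed. The theorem in the starting files (`algS_goodS`,
  for `IsGoodAVS`) excludes two nonisogenous threefolds that are not supersingular and whose CM fields
  have the same Galois closure, unless these fields are Galois over `ℚ`; the new theorem on Tate
  classes is `Pool.Agent.R937.PG.main` (in `Pool/Agent/R937/PZ`).

Let `K₀` be the fraction field of the ring of Witt vectors of the field with `Q = (p ^ a) ^ s`
elements, with its Frobenius automorphism `σ`; let `V₀` be the dual space of the first crystalline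
cohomology group of `Y` with coefficients in `K₀`, with the semilinear endomorphism `Φ` dual to the
crystalline Frobenius endomorphism, and the linear Frobenius endomorphism `F₀ = Φ ^ (a * s)`. The
crystalline cohomology group `H^{2m}(Y)` is the space of alternating forms `f` of degree `2 m` on `V₀`;
the crystalline Frobenius endomorphism maps `f` to `v ↦ σ (f (Φ v))`. Over an algebraically closed
field `Ω` that contains `K₀` the space `V₀` is identified with `Ω ⊗ H_1(X, ℚ)`, where `F₀` is the
multiplication by `π ^ s` (`IsCrystalline`; the theorem holds for all fields `K₀` with an
automorphism `σ` whose power `a * s` is trivial).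

Let `Cyc ⊆ H^{2m}(Y)` be the set of the classes of algebraic cycles of codimension `m` on `Y` over the
field with `Q` elements. The theorem uses of this set only that the crystalline Frobenius
endomorphism multiplies its elements by `p ^ m`, and that its linear span over `K₀` contains each
class `g` with `Fr g = Q ^ m g` that belongs, over `Ω`, to the smallest system `AlgS` of cohomology
classes of abelian varieties over finite fields that contains the Tate classes of degree two, the
reductions of the Weil classes of imaginary quadratic fields on abelian fourfolds and sixfolds of CM
type and of split Weil type, and the reductions of the Hodge classes of degree four on products of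
elliptic curves and abelian surfaces of CM type, and that is stable under linear combinations, cup
products, pull-backs along homomorphisms and push-forwards along projections. (These classes are
algebraic by theorems of Tate, Markman, and Ramón Marí; the average of the conjugates of a cycle is
defined over the ground field.)

Then each class `f` in `H^{2m}(Y)` with `Fr f = Q ^ m f` is a linear combination of elements of `Cyc`
with coefficients in `K₀`, and each class `f` that is multiplied by `p ^ m` by the crystalline
Frobenius endomorphism is a linear combination of elements of `Cyc` with coefficients in the fixed
field of `σ`, the field of `p`-adic numbers.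
-/

namespace Pool.Agent.Results.MP_60ec62_ag.NonOrdinaryThreefolds

open Pool.Agent.W495.TA Pool.Agent.W547.KB Pool.Agent.TH117.F5 Pool.Agent.R937.PC
  Pool.Agent.R299.CRY
open Pool.Agent.R937.PG (IsGoodAVP)
open scoped TensorProduct

/-- `Y` has dimension at most five or is a product of a supersingular abelian variety and of powers
of small factors (`IsGoodAVP`), `V₀` is the dual of the first crystalline cohomology group, `Φ` and
`F₀` are its semilinear and its linear Frobenius endomorphism, `Cyc` is the set of classes of
algebraic cycles. Both forms of the crystalline Tate conjecture hold. -/
theorem result (p : ℕ) [Fact p.Prime] (ν : PadicAlgCl p ≃+* ℂ) (Y : RedAV p ν)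
    (hY : IsGoodAVP Y) (s : ℕ) (hs : 0 < s)
    {K₀ Ω V₀ : Type} [Field K₀] [CharZero K₀] [Field Ω] [IsAlgClosed Ω] [CharZero Ω]
    [Algebra K₀ Ω] [AddCommGroup V₀] [Module K₀ V₀] [FiniteDimensional K₀ V₀]
    (F₀ : V₀ →ₗ[K₀] V₀) (e : (Ω ⊗[K₀] V₀) ≃ₗ[Ω] TM Ω Y) (he : IsCrystalline Y s F₀ e)
    (σ : K₀ ≃+* K₀) (Φ : V₀ → V₀) (hΦ : IsSemilinearFrobenius (Y.a * s) σ Φ F₀) {m : ℕ}
    (Cyc : Set (V₀ [⋀^Fin (2 * m)]→ₗ[K₀] K₀)) (hC : ∀ c ∈ Cyc, IsFrobFixed p σ Φ c)
    (hA : ContainsAlgS s F₀ e (Submodule.span K₀ Cyc)) (f : V₀ [⋀^Fin (2 * m)]→ₗ[K₀] K₀) :
    (IsTateCrys F₀ ((p ^ Y.a) ^ s) m f → f ∈ Submodule.span K₀ Cyc) ∧
      (IsFrobFixed p σ Φ f → FixedSpan σ Cyc f) :=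
  crys_main hY s hs F₀ e he σ Φ hΦ Cyc hC hA f

end Pool.Agent.Results.MP_60ec62_ag.NonOrdinaryThreefolds
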