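import Pool.Agent.R299.CRY2.Main

/-!
# The crystalline Tate conjecture for powers of the factors of abelian varieties of dimension at most
# five

Over an algebraic closure of the field with `p` elements each abelian variety is isogenous to the
reduction of an abelian variety of CM type (Honda, Tate). So an abelian variety over the field with
`p ^ a` elements is modelled by a finite product `X` of CM types `(E i, Φ i)` with Weil numbers
`π i ∈ E i` that satisfy the formula of Shimura and Taniyama (`RedAV`).

Let `Y` be an abelian variety over the field with `p ^ a` elements that is isogenous, over an algebraic
closure, to a product of a supersingular abelian variety of any dimension and of powers (with any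
exponents) of the factors of an abelian variety `Z` (`IsPowersTimesSupersingular`) of one of the
following kinds (`IsGoodSet`, for the set of all factors), with any Newton polygons:

* the dimension of `Z` is at most five, and no two factors of `Z` form an exceptional pair: two
  non-Galois quartic CM fields with the same Galois closure, or CM fields of degrees 2 and 8, with a
  special relation between the Frobenius eigenvalues (`IsExceptionalPair`);
* the factors of `Z` (in any number) have dimension at most three, and two factors whose CM fields
  have the same Galois closure are isogenous, unless these fields are Galois over `ℚ` or one of the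
  two factors is supersingular.

For example, `Y` may be any power of a simple abelian variety of dimension four or five.

Let `K₀` be the fraction field of the ring of Witt vectors of the field with `Q = (p ^ a) ^ s`
elements, with its Frobenius automorphism `σ`; let `V₀` be the dual space of the first crystalline
cohomology group of `Y` with coefficients in `K₀`, with the semilinear endomorphism `Φ` dual to the
crystalline Frobenius endomorphism, and the linear Frobenius endomorphism `F₀ = Φ ^ (a * s)`. The
crystalline cohomology group `H^{2m}(Y)` is the space of alternating forms `f` of degree `2 m` on `V₀`;
the crystalline Frobenius endomorphism maps `f` to `v ↦ σ (f (Φ v))`. Over an algebraically closed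
field `Ω` that contains `K₀` the space `V₀` is identified with `Ω ⊗ H_1(X, ℚ)`, where `F₀` is the
multiplication by `π ^ s` (`IsCrystalline`; the theorem holds for all fields `K₀` with an
automorphism `σ` whose power `a * s` is trivial).

Let `Cyc ⊆ H^{2m}(Y)` be the set of the classes of algebraic cycles of codimension `m` on `Y` over the
field with `Q` elements. The theorem uses of this set only that the crystalline Frobenius
endomorphism multiplies its elements by `p ^ m`, and that its linear span over `K₀` contains each
class `g` with `Fr g = Q ^ m g` that belongs, over `Ω`, to the smallest system `Alg` of cohomology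
classes of abelian varieties over finite fields that contains the Tate classes of degree two and the
reductions of the Weil classes of imaginary quadratic fields on abelian fourfolds and sixfolds of CM
type and of split Weil type, and that is stable under linear combinations, cup products, pull-backs
along homomorphisms and push-forwards along projections. (These classes are algebraic by theorems of
Tate and Markman; the average of the conjugates of a cycle is defined over the ground field.)

Then each class `f` in `H^{2m}(Y)` with `Fr f = Q ^ m f` is a linear combination of elements of `Cyc`
with coefficients in `K₀`, and each class `f` that is multiplied by `p ^ m` by the crystalline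
Frobenius endomorphism is a linear combination of elements of `Cyc` with coefficients in the fixed
field of `σ`, the field of `p`-adic numbers.

The proof uses the theorem of the starting files that the Tate classes on `Y` belong to `Alg`
(`Pool.Agent.TH117.BL.elementary`, in any characteristic zero field of coefficients).
-/

namespace Pool.Agent.Results.MP_60ec62_ag.PowersOfFactors

open Pool.Agent.W495.TA Pool.Agent.W547.KB Pool.Agent.TH117 Pool.Agent.TH117.F5
  Pool.Agent.R299.CRY
open scoped TensorProduct

/-- `Y` is isogenous, over an algebraic closure, to a product of a supersingular abelian variety and of
powers of the factors of `Z`, `Z` has dimension at most five and no exceptional pair of factors, or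
small factors; `V₀` is the dual of the first crystalline cohomology group of `Y`, `Φ` and `F₀` are its
semilinear and its linear Frobenius endomorphism, `Cyc` is the set of classes of algebraic cycles. Both
forms of the crystalline Tate conjecture hold for `Y`. -/
theorem result (p : ℕ) [Fact p.Prime] (ν : PadicAlgCl p ≃+* ℂ) (Y Z : RedAV p ν)
    (hZ : BL.IsGoodSet Z Set.univ) (hY : BL.IsPowersTimesSupersingular Z Y) (s : ℕ) (hs : 0 < s)
    {K₀ Ω V₀ : Type} [Field K₀] [CharZero K₀] [Field Ω] [IsAlgClosed Ω] [CharZero Ω]
    [Algebra K₀ Ω] [AddCommGroup V₀] [Module K₀ V₀] [FiniteDimensional K₀ V₀]
    (F₀ : V₀ →ₗ[K₀] V₀) (e : (Ω ⊗[K₀] V₀) ≃ₗ[Ω] TM Ω Y) (he : IsCrystalline Y s F₀ e)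
    (σ : K₀ ≃+* K₀) (Φ : V₀ → V₀) (hΦ : IsSemilinearFrobenius (Y.a * s) σ Φ F₀) {m : ℕ}
    (Cyc : Set (V₀ [⋀^Fin (2 * m)]→ₗ[K₀] K₀)) (hC : ∀ c ∈ Cyc, IsFrobFixed p σ Φ c)
    (hA : ContainsAlg s F₀ e (Submodule.span K₀ Cyc)) (f : V₀ [⋀^Fin (2 * m)]→ₗ[K₀] K₀) :
    (IsTateCrys F₀ ((p ^ Y.a) ^ s) m f → f ∈ Submodule.span K₀ Cyc) ∧
      (IsFrobFixed p σ Φ f → FixedSpan σ Cyc f) :=
  Pool.Agent.R299.CRY2.main_elem (GN.elem_of_good hZ) hY s hs F₀ e he σ Φ hΦ Cyc hC hA f

end Pool.Agent.Results.MP_60ec62_ag.PowersOfFactors
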